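import Mathlib
import Pool.Agent.Q52.ISO.Fin
import Pool.Agent.Y667.RP.Disc
import Pool.Agent.W672.FK.Lowf
import Pool.Agent.W307.RT.Tors

/-!
# Parity of the rank and of the 2-isogeny Selmer rank for a positive proportion of the curves

All elliptic curves over `ℚ` with full rational 2-torsion, ordered by the naive height or by the
absolute value of the minimal discriminant. For a positive proportion of the curves `E` the parity
statement `r ≡ f₁ + f₂ - 2` modulo `2` holds for every equation `y² = x³ + a x² + b x` with integers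
`a`, `b` of `E` (so for all the three points of order two), and also for every such equation of the
three curves that are 2-isogenous to `E`, with the point of order two that generates the kernel of the
dual isogeny.
-/

namespace Pool.Agent.Results.MP_e2b281_nt.FullTwoTorsionCurves

open Finset Filter Topology

/-- the curve `y² = x³ + A x + B` over `ℚ` -/
def E (A B : ℤ) : WeierstrassCurve ℚ := ⟨0, 0, 0, (A : ℚ), (B : ℚ)⟩

/-- the curve `y² = x³ + a x² + b x` over `ℚ` -/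
def M (a b : ℤ) : WeierstrassCurve ℚ := ⟨0, (a : ℚ), 0, (b : ℚ), 0⟩

/-- isomorphic over `ℚ` -/
def Iso (W W' : WeierstrassCurve ℚ) : Prop :=
  ∃ C : WeierstrassCurve.VariableChange ℚ, C • W = W'

/-- the absolute value of the minimal discriminant of an elliptic curve `W` over `ℚ`: the smallest
absolute value of the discriminant of a Weierstrass equation `V` with integer coefficients which is
isomorphic to `W` over `ℚ` -/
noncomputable def minDisc (W : WeierstrassCurve ℚ) : ℕ :=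
  sInf {n : ℕ | ∃ (V : WeierstrassCurve ℤ) (C : WeierstrassCurve.VariableChange ℚ),
    C • W = V.map (Int.castRingHom ℚ) ∧ n = V.Δ.natAbs}

/-- the naive height of `y² = x³ + A x + B` is at most `Z` -/
def HeightLe (c : ℤ × ℤ) (Z : ℕ) : Prop := 4 * |c.1| ^ 3 ≤ Z ∧ 27 * c.2 ^ 2 ≤ Z

/-- the minimal discriminant of `y² = x³ + A x + B` is at most `Z` in absolute value -/
def DiscLe (c : ℤ × ℤ) (Z : ℕ) : Prop := minDisc (E c.1 c.2) ≤ Z

/-- The pairs `(A, B)` of integers such that `4 A³ + 27 B² ≠ 0`, there is no prime `p` with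
`p⁴ ∣ A` and `p⁶ ∣ B`, `Z/2 x Z/2` embeds in the group of the rational points of
`y² = x³ + A x + B`, and the size (`HeightLe` or `DiscLe`) is at most `Z`. Every elliptic curve over
`ℚ` with full rational 2-torsion is isomorphic to `E A B` for exactly one pair with the first three
properties. -/
def Fam (I : ℤ × ℤ → ℕ → Prop) (Z : ℕ) : Set (ℤ × ℤ) :=
  {c : ℤ × ℤ | 4 * c.1 ^ 3 + 27 * c.2 ^ 2 ≠ 0 ∧
    (∀ p : ℕ, p.Prime → ¬ ((p : ℤ) ^ 4 ∣ c.1 ∧ (p : ℤ) ^ 6 ∣ c.2)) ∧
    (∃ f : ZMod 2 × ZMod 2 →+ (E c.1 c.2).toAffine.Point, Function.Injective f) ∧ I c Z}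

/-- the proportion of the curves of `S` among the curves of size at most `Z` -/
noncomputable def proportion (I : ℤ × ℤ → ℕ → Prop) (S : Set (ℤ × ℤ)) (Z : ℕ) : ℝ :=
  ((Fam I Z ∩ S).ncard : ℝ) / (Fam I Z).ncard

/-- the quartic `N² = b₁ M⁴ + a M² e² + (b / b₁) e⁴` has a solution with `(M, e) ≠ (0, 0)` in `K` -/
def Solvable (K : Type) [Field K] (a b b₁ : ℤ) : Prop := ∃ N M e : K, (M ≠ 0 ∨ e ≠ 0) ∧
  N ^ 2 = (b₁ : K) * M ^ 4 + (a : K) * M ^ 2 * e ^ 2 + ((b / b₁ : ℤ) : K) * e ^ 4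

/-- the squarefree divisors `b₁` of `b` (positive or negative) with an everywhere locally solvable
quartic -/
def Sel (a b : ℤ) : Set ℤ := {b₁ | Squarefree b₁ ∧ b₁ ∣ b ∧ Solvable ℝ a b b₁ ∧
  ∀ (p : ℕ) [Fact p.Prime], Solvable ℚ_[p] a b b₁}

/-- the exponent `f` for `(a, b)`, defined by `#Sel = 2 ^ f` -/
noncomputable def f (a b : ℤ) : ℕ := Nat.log 2 (Sel a b).ncard

/-- the Mordell-Weil rank of `y² = x³ + a x² + b x` -/
noncomputable def rank (a b : ℤ) : ℕ := Module.finrank ℤ (M a b).toAffine.Point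

/-- The parity statement for the curve `y² = x³ + a x² + b x`: the sets for `(a, b)` and for
`(a', b') = (-2 a, a² - 4 b)` have `2 ^ f₁` and `2 ^ f₂` elements, and `r ≡ s = f₁ + f₂ - 2` modulo
two. -/
def Parity (a b : ℤ) : Prop :=
  (Sel a b).ncard = 2 ^ f a b ∧
  (Sel (-2 * a) (a ^ 2 - 4 * b)).ncard = 2 ^ f (-2 * a) (a ^ 2 - 4 * b) ∧
  (rank a b : ℤ) ≡ (f a b : ℤ) + f (-2 * a) (a ^ 2 - 4 * b) - 2 [ZMOD 2]

/-- The curves `E` such that for all the integers `a`, `b` for which `E` is isomorphic to the curve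
`y² = x³ + a x² + b x` or to its 2-isogenous curve `y² = x³ - 2 a x² + (a² - 4 b) x`, the group of
the rational points of `y² = x³ + a x² + b x` is finite and the parity statement holds for this
curve. -/
def Good : Set (ℤ × ℤ) :=
  {c | ∀ a b : ℤ, Iso (M a b) (E c.1 c.2) ∨ Iso (M (-2 * a) (a ^ 2 - 4 * b)) (E c.1 c.2) →
    Finite (M a b).toAffine.Point ∧ Parity a b}

lemma FamH_eq (H : ℕ) : Fam HeightLe H = (Pool.Agent.W307.RT.Cv 2 H : Set (ℤ × ℤ)) := by
  classical
  ext c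
  have h : Pool.Agent.W307.RT.HasT 2 (Pool.Agent.W307.RT.Sh c.1 c.2) ↔
    ∃ f : ZMod 2 × ZMod 2 →+ (E c.1 c.2).toAffine.Point, Function.Injective f :=
    Pool.Agent.W307.RT.tors_iff
  unfold Fam HeightLe Pool.Agent.W307.RT.Cv
  rw [Set.mem_ofPred_eq, mem_coe, mem_filter, h, mem_product, mem_Icc, mem_Icc]
  constructor
  · rintro ⟨h1, h2, h3, h4, h5⟩
    refine ⟨⟨?_, ?_⟩, h1, h4, h5, h2, h3⟩
    · rw [← abs_le]
      have h0 := abs_nonneg c.1
      rcases eq_or_lt_of_le h0 with h6 | h6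
      · rw [← h6]; positivity
      · have : 1 ≤ |c.1| := h6
        nlinarith [mul_nonneg h0 h0, mul_self_nonneg (|c.1| - 1)]
    · rw [← abs_le]
      have h0 := abs_nonneg c.2
      rw [← sq_abs] at h5
      rcases eq_or_lt_of_le h0 with h6 | h6
      · rw [← h6]; positivity
      · have : 1 ≤ |c.2| := h6
        nlinarith
  · rintro ⟨-, h1, h4, h5, h2, h3⟩
    exact ⟨h1, h2, h3, h4, h5⟩

lemma FamD_eq (D : ℕ) : Fam DiscLe D = (Pool.Agent.TH344.DS.Dv D : Set (ℤ × ℤ)) := by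
  classical
  have h0 : Fam DiscLe D = Pool.Agent.W307.RS.DvS 2 D := by
    ext c
    have h : Pool.Agent.W307.RT.HasT 2 (Pool.Agent.W307.RT.Sh c.1 c.2) ↔
        ∃ f : ZMod 2 × ZMod 2 →+ (E c.1 c.2).toAffine.Point, Function.Injective f :=
      Pool.Agent.W307.RT.tors_iff
    unfold Fam Pool.Agent.W307.RS.DvS
    rw [Set.mem_ofPred_eq, Set.mem_ofPred_eq, h]
    exact Iff.rfl
  rw [h0]
  unfold Pool.Agent.TH344.DS.Dv
  rw [dif_pos (Pool.Agent.TH344.DS.excd.1 D), Set.Finite.coe_toFinset]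

/-- The number of these curves tends to infinity (ordering by height). -/
lemma tendstoH : Tendsto (fun Z : ℕ => (Fam HeightLe Z).ncard) atTop atTop := by
  simp only [FamH_eq, Set.ncard_coe_finset]
  exact Pool.Agent.W307.RT.tendsto_of_low Pool.Agent.W672.FK.lowf

/-- The number of these curves tends to infinity (ordering by the minimal discriminant). -/
lemma tendstoD : Tendsto (fun Z : ℕ => (Fam DiscLe Z).ncard) atTop atTop := by
  have h1 := Pool.Agent.W307.RT.tendsto_of_low Pool.Agent.W672.FK.lowf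
  have h2 : Tendsto (fun D : ℕ => (Pool.Agent.W307.RT.Cv 2 (D / 32)).card) atTop atTop :=
    h1.comp (Nat.tendsto_div_const_atTop (by norm_num))
  obtain ⟨hD1, hD2, hD3⟩ := Pool.Agent.TH344.DS.excd
  refine tendsto_atTop_mono (fun D => ?_) h2
  have h3 : (Pool.Agent.TH344.DS.Dv D : Set (ℤ × ℤ)) = Pool.Agent.W307.RS.DvS 2 D := by
    unfold Pool.Agent.TH344.DS.Dv
    rw [dif_pos (hD1 D), Set.Finite.coe_toFinset]
  rw [FamD_eq, h3, ← Set.ncard_coe_finset]
  exact Set.ncard_le_ncard (Pool.Agent.W307.RS.Cv_sub Pool.Agent.W554.RS.mdl 2 (D / 32) D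
    (Nat.mul_div_le D 32)) (hD1 D)

lemma disc_E {A B : ℤ} (h : 4 * A ^ 3 + 27 * B ^ 2 ≠ 0) : (E A B).Δ ≠ 0 := by
  have h1 : (E A B).Δ = -16 * ((4 * A ^ 3 + 27 * B ^ 2 : ℤ) : ℚ) := by
    simp only [E, WeierstrassCurve.Δ, WeierstrassCurve.b₂, WeierstrassCurve.b₄,
      WeierstrassCurve.b₆, WeierstrassCurve.b₈]
    push_cast
    ring
  rw [h1]
  exact mul_ne_zero (by norm_num) (by exact_mod_cast h)

lemma good_of {I : ℤ × ℤ → ℕ → Prop} {Z : ℕ} {k : ℤ × ℤ} (hk : k ∈ Fam I Z)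
    (hPk : Pool.Agent.Q52.ISO.TP 0 k) : k ∈ Good := by
  obtain ⟨h1, h2⟩ := hPk
  have hT : Pool.Agent.W307.RT.HasT 2 (Pool.Agent.W307.RT.Sh k.1 k.2) :=
    Pool.Agent.W307.RT.tors_iff.2 hk.2.2.1
  have hr := Pool.Agent.Y667.MT.rank_le hk.1 hT h1.1 h1.2.1
  have hfg : Module.Finite ℤ (Pool.Agent.W307.RT.Sh k.1 k.2).toAffine.Point :=
    Pool.Agent.Y667.PA.fin_of hk.1 hT
  have hfin : Finite (Pool.Agent.Q52.ISO.Eo k.1 k.2).toAffine.Point :=
    Pool.Agent.Q52.ISO.fin_of_rank (M := (Pool.Agent.W307.RT.Sh k.1 k.2).toAffine.Point)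
      (Nat.le_zero.1 hr)
  intro a b hab
  obtain ⟨g1, g2, g3, g4⟩ := Pool.Agent.Q52.ISO.conj_of h2 hfin (disc_E hk.1) a b hab
  refine ⟨g1, g2, g3, ?_⟩
  have h5 : Even (rank a b + f a b + f (-2 * a) (a ^ 2 - 4 * b)) := g4
  obtain ⟨m, hm⟩ := h5
  rw [Int.modEq_iff_dvd]
  exact ⟨m - rank a b - 1, by push_cast; omega⟩

/-- **Theorem.** (1) Every elliptic curve `E : y² = x³ + A x + B` with full rational 2-torsion is
isomorphic to `y² = x³ + a x² + b x`, `a = 3 e`, `b = 3 e² + A`, for three integers `e`. (2) Order the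
elliptic curves over `ℚ` with full rational 2-torsion by the naive height or by the absolute value of
the minimal discriminant. For both orderings there are finitely many curves of size at most `Z`, their
number tends to infinity with `Z`, and a positive proportion of them (the lower density is positive)
is in `Good`: the parity statement `r ≡ s` holds for all the integral models `y² = x³ + a x² + b x`
of the curve and of its three 2-isogenous curves (with the kernel of the dual isogeny). -/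
theorem result :
    (∀ (I : ℤ × ℤ → ℕ → Prop) (Z : ℕ), ∀ c ∈ Fam I Z, ∃ e₁ e₂ e₃ : ℤ, e₁ ≠ e₂ ∧ e₁ ≠ e₃ ∧
      e₂ ≠ e₃ ∧ ∀ e : ℤ, e = e₁ ∨ e = e₂ ∨ e = e₃ →
        Iso (M (3 * e) (3 * e ^ 2 + c.1)) (E c.1 c.2)) ∧
    ∀ I : ℤ × ℤ → ℕ → Prop, I = HeightLe ∨ I = DiscLe →
      (∀ Z : ℕ, (Fam I Z).Finite) ∧ Tendsto (fun Z : ℕ => (Fam I Z).ncard) atTop atTop ∧
      ∃ δ : ℝ, 0 < δ ∧ ∀ᶠ Z : ℕ in atTop, δ ≤ proportion I Good Z := by
  classical
  refine ⟨fun I Z c hc => ?_, fun I hI => ?_⟩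
  · have hT : Pool.Agent.W307.RT.HasT 2 (Pool.Agent.W307.RT.Sh c.1 c.2) :=
      Pool.Agent.W307.RT.tors_iff.2 hc.2.2.1
    obtain ⟨F, -, hF⟩ := Pool.Agent.W513.FK.parf
    obtain ⟨-, -, -, -, -, e1, e2, e3, he, -, -⟩ := hF c hc.1 hT
    obtain ⟨d12, d13, d23⟩ := Pool.Agent.W402.FK.dist c.1 c.2 e1 e2 e3 hc.1 he
    refine ⟨e1, e2, e3, d12, d13, d23, fun e h => ?_⟩
    have h1 : e ^ 3 + c.1 * e + c.2 = 0 := by
      rw [he e]
      rcases h with rfl | rfl | rfl <;> ring
    exact Pool.Agent.Q52.ISO.iso_root h1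
  have h0 : ∃ c : ℝ, 0 < c ∧ ∃ H0 : ℕ, ∀ H : ℕ, H0 ≤ H →
      c * ((Pool.Agent.W307.RT.Cv 2 H).card : ℝ) ≤
        (((Pool.Agent.W307.RT.Cv 2 H).filter (Pool.Agent.Q52.ISO.TP 0)).card : ℝ) := by
    obtain ⟨c, hc, H0, h⟩ := Pool.Agent.Q52.ISO.many 0
    refine ⟨c, hc, H0, fun H hH => (h H hH).trans
      (Nat.cast_le.2 (card_le_card fun k hk => ?_))⟩
    rw [mem_filter] at hk ⊢
    exact hk
  rcases hI with rfl | rfl
  · refine ⟨fun Z => ?_, tendstoH, ?_⟩
    · rw [FamH_eq]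
      exact finite_toSet _
    · obtain ⟨c, hc, H0, h⟩ := h0
      refine ⟨c, hc, ?_⟩
      filter_upwards [eventually_ge_atTop H0, tendstoH.eventually_ge_atTop 1] with H hH hH1
      unfold proportion
      rw [le_div_iff₀ (by exact_mod_cast hH1)]
      have e1 : (Fam HeightLe H).ncard = (Pool.Agent.W307.RT.Cv 2 H).card := by
        rw [FamH_eq, Set.ncard_coe_finset]
      rw [e1]
      refine (h H hH).trans (Nat.cast_le.2 ?_)
      rw [← Set.ncard_coe_finset]
      refine Set.ncard_le_ncard (fun k hk => ?_) (Set.Finite.inter_of_left (by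
        rw [FamH_eq]
        exact finite_toSet _) _)
      rw [mem_coe, mem_filter] at hk
      have hk' : k ∈ Fam HeightLe H := by
        rw [FamH_eq, mem_coe]
        exact hk.1
      exact ⟨hk', good_of hk' hk.2⟩
  · refine ⟨fun Z => ?_, tendstoD, ?_⟩
    · rw [FamD_eq]
      exact finite_toSet _
    · obtain ⟨c, hc, H0, h⟩ := Pool.Agent.Y667.RP.disc_of_height (Pool.Agent.Q52.ISO.TP 0) h0
      refine ⟨c, hc, ?_⟩
      filter_upwards [eventually_ge_atTop H0, tendstoD.eventually_ge_atTop 1] with H hH hH1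
      unfold proportion
      rw [le_div_iff₀ (by exact_mod_cast hH1)]
      have e1 : (Fam DiscLe H).ncard = (Pool.Agent.TH344.DS.Dv H).card := by
        rw [FamD_eq, Set.ncard_coe_finset]
      rw [e1]
      refine (h H hH).trans (Nat.cast_le.2 ?_)
      rw [← Set.ncard_coe_finset]
      refine Set.ncard_le_ncard (fun k hk => ?_) (Set.Finite.inter_of_left (by
        rw [FamD_eq]
        exact finite_toSet _) _)
      rw [mem_coe, mem_filter] at hk
      have hk' : k ∈ Fam DiscLe H := by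
        rw [FamD_eq, mem_coe]
        exact hk.1
      exact ⟨hk', good_of hk' hk.2⟩

end Pool.Agent.Results.MP_e2b281_nt.FullTwoTorsionCurves
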