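import Pool.Agent.Q44.BN.Qrt
import Pool.Agent.Q155.NB.LawP
import Pool.Agent.Q155.NB.Prt

/-!
# The parity of the rank and of the 2-isogeny Selmer rank of the twists by the divisors of `D`, for almost all
# squarefree `D`

Let `E : y² = x³ + a x² + b x`, `a` and `b` integers such that `b` is not a square and `b (a² - 4 b)` is a
square different from `0`, and let `E_N : y² = x³ + a N x² + b N² x` be its quadratic twists, with rank `r` and
exponents `f₁`, `f₂` of the descent via `2`-isogeny, `s = f₁ + f₂ - 2`. There is ONE set `𝒮` of squarefree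
positive integers which contains almost all of them (its density among the squarefree positive integers, in
the natural order, is one), such that for all these curves and EVERY squarefree integer `M` (positive or
negative) the following holds for all sufficiently large `D ∈ 𝒮` (how large may depend on the curve, on `M`,
`D₀` and `ε`, not on `g`). Let `M ∘ d` be the squarefree integer in the square class of `M d`; consider the
`2 ^ ω(D)` curves `E_{M ∘ d}`, `d ∣ D`.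

For squarefree `D₀` the local class of `D₀` consists of the divisors `d` of `D` for which `D₀ (M ∘ d)` is
positive and a square in `ℚ_p` for the primes `p` which divide `2 b (a² - 4 b)`. Let `τ` be the product, over
the infinite place and these primes, of `1/2` times the order of the image of `E_{D₀}(ℚ_v)` in `ℚ_v*/ℚ_v*²`
under the abscissa, and let `τ'` be the same for the isogenous curve. If the class is not empty then

* it contains at least `c 2 ^ ω(D)` divisors, `c > 0` depending on `a`, `b` only;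
* for EVERY function `g` with `|g n| ≤ 2 ^ n` the mean of `g(f₁ - 1)` over the divisors of the class differs by
  less than `ε` from `∑ g(n) law(τ, n)`, and the mean of `g(f₂ - 1)` from `∑ g(n) law(τ', n)`, where
  `law(t, n) = t ^ n / ((2 ^ n - 1) (2 ^ n - 2) ⋯ (2 ^ n - 2 ^ (n - 1))) · ∏_{i > n} (1 - t / 2 ^ i)`;
* if `τ = 1` then the proportion of the `d` with `f₁ = f₂ = 1`, hence `r = 0 = s`, differs by less than `ε`
  from `∏_{i ≥ 1} (1 - 1 / 2 ^ i) = 0.288…`; for these curves the parity statement `r ≡ s` holds, and the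
  `2`-part of the Tate-Shafarevich group is trivial.

*Every* one of the curves `E` has balanced classes (`τ = 1`); for every squarefree `M` in a balanced class the
parity statement holds, with `r = s = 0`, for at least `c 2 ^ ω(D)` of the curves `E_{M ∘ d}`, `d ∣ D`. For
`a = 4`, `b = 2`, `M` negative and odd, `D` odd, and for `a = b = 5`, `M` negative and even, `D` odd, the laws
are those with `τ = τ' = 1` for the set of ALL the divisors of `D`.

Nothing is assumed about the curve `E_M`: its Selmer groups can be large.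
-/

set_option autoImplicit false

open Finset Filter

namespace Pool.Agent.Results.MP_e2b281_nt.ParityOverDivisors

/-- the curve `y² = x³ + A x² + B x` over `ℚ` -/
def E (A B : ℤ) : WeierstrassCurve ℚ :=
  { a₁ := 0, a₂ := (A : ℚ), a₃ := 0, a₄ := (B : ℚ), a₆ := 0 }

/-- the rank of the group of the rational points of `y² = x³ + A x² + B x` -/
noncomputable def rank (A B : ℤ) : ℕ := Module.finrank ℤ (E A B).toAffine.Point

open Classical in
/-- the Tate-Shafarevich group of `y² = x³ + A x² + B x` contains no element of `2`-power order different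
from `0` -/
def NoSha (A B : ℤ) : Prop :=
  ∀ (x : Pool.Agent.W262.SH.Sha (E A B)) (n : ℕ), 2 ^ n • x = 0 → x = 0

/-- the quartic `N² = b₁ M⁴ + A M² e² + (B / b₁) e⁴` has a solution with `(M, e) ≠ (0, 0)` in `K` -/
def Solvable (K : Type) [Field K] (A B b₁ : ℤ) : Prop := ∃ N M e : K, (M ≠ 0 ∨ e ≠ 0) ∧
  N ^ 2 = (b₁ : K) * M ^ 4 + (A : K) * M ^ 2 * e ^ 2 + ((B / b₁ : ℤ) : K) * e ^ 4

/-- the squarefree divisors `b₁` of `B` (positive or negative) with an everywhere locally solvable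
quartic -/
def Sel (A B : ℤ) : Set ℤ := {b₁ | Squarefree b₁ ∧ b₁ ∣ B ∧ Solvable ℝ A B b₁ ∧
  ∀ (p : ℕ) [Fact p.Prime], Solvable ℚ_[p] A B b₁}

/-- the exponent `f` for `(A, B)`, defined by `#Sel = 2 ^ f` -/
noncomputable def f (A B : ℤ) : ℕ := Nat.log 2 (Sel A B).ncard

/-- the parity statement for the curve `y² = x³ + A x² + B x`: `r ≡ s = f₁ + f₂ - 2` modulo two -/
def Parity (A B : ℤ) : Prop :=
  (rank A B : ℤ) ≡ (f A B : ℤ) + f (-2 * A) (A ^ 2 - 4 * B) - 2 [ZMOD 2]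

/-- the curves: `b` is not a square, `b (a² - 4 b)` is a square different from `0` -/
def Exceptional (a b : ℤ) : Prop :=
  ¬ IsSquare b ∧ a ^ 2 - 4 * b ≠ 0 ∧ IsSquare (b * (a ^ 2 - 4 * b))

/-- the rank of the twist `E_D : y² = x³ + a D x² + b D² x` -/
noncomputable def r (a b D : ℤ) : ℕ := rank (a * D) (b * D ^ 2)

/-- the exponent `f₁` of `E_D` -/
noncomputable def f₁ (a b D : ℤ) : ℕ := f (a * D) (b * D ^ 2)

/-- the exponent `f₂` of `E_D` -/
noncomputable def f₂ (a b D : ℤ) : ℕ := f (-2 * (a * D)) ((a * D) ^ 2 - 4 * (b * D ^ 2))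

/-- `f₁ = f₂ = 1`, the rank is `0`, the `2`-part of the Tate-Shafarevich group is trivial and the parity
statement holds for `E_D` -/
def Good (a b D : ℤ) : Prop := f₁ a b D = 1 ∧ f₂ a b D = 1 ∧ r a b D = 0 ∧
  NoSha (a * D) (b * D ^ 2) ∧ Parity (a * D) (b * D ^ 2)

/-- the group of the square classes of a field -/
abbrev SquareClasses (K : Type) [Field K] : Type := Kˣ ⧸ (powMonoidHom 2 : Kˣ →* Kˣ).range

/-- the square classes of the abscissae of the points over `K` of `y² = x³ + A x² + B x` -/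
def image (K : Type) [Field K] (A B : ℤ) : Set (SquareClasses K) :=
  {c | ∃ (x : Kˣ) (y : K), y ^ 2 = (x : K) ^ 3 + (A : K) * (x : K) ^ 2 + (B : K) * (x : K) ∧
    c = QuotientGroup.mk x}

open Classical in
/-- the number of these classes over `ℚ_p` -/
noncomputable def imageCard (A B : ℤ) (p : ℕ) : ℕ :=
  if h : p.Prime then (haveI : Fact p.Prime := ⟨h⟩; Nat.card (image ℚ_[p] A B)) else 1

/-- the primes which divide `2 b (a² - 4 b)` -/
def bad (a b : ℤ) : Finset ℕ := (2 * (b * (a ^ 2 - 4 * b))).natAbs.primeFactors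

/-- the product over the primes of `S` and the infinite place of `1/2` times the number of the classes -/
noncomputable def ratio (S : Finset ℕ) (A B : ℤ) : ℝ :=
  (((∏ p ∈ S, imageCard A B p) * Nat.card (image ℝ A B) : ℕ) : ℝ) / 2 ^ (S.card + 1)

/-- the constant of the curve `E_D` -/
noncomputable def τ (a b D : ℤ) : ℝ := ratio (bad a b) (a * D) (b * D ^ 2)

/-- the constant of the isogenous curve `E_D'` -/
noncomputable def τ' (a b D : ℤ) : ℝ :=
  ratio (bad a b) (-2 * (a * D)) ((a * D) ^ 2 - 4 * (b * D ^ 2))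

/-- `D` and `D₀` have the same sign and the same square classes at the bad primes -/
def Same (a b D₀ D : ℤ) : Prop := 0 < D₀ * D ∧
  ∀ (p : ℕ) [Fact p.Prime], (p : ℤ) ∣ 2 * (b * (a ^ 2 - 4 * b)) → IsSquare ((D₀ * D : ℤ) : ℚ_[p])

/-- the squarefree integer in the square class of `M d`, for `M` and `d` squarefree -/
def tw (M : ℤ) (d : ℕ) : ℤ := M * d / (Int.gcd M d : ℤ) ^ 2

open Classical in
/-- the divisors `d` of `D` for which the squarefree part of `M d` is in the local class of `D₀` -/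
noncomputable def Class (a b M D₀ : ℤ) (D : ℕ) : Finset ℕ :=
  D.divisors.filter fun d => Same a b D₀ (tw M d)

/-- the law of the exponents -/
noncomputable def law (t : ℝ) (i : ℕ) : ℝ :=
  t ^ i / (∏ j ∈ range i, ((2 : ℝ) ^ i - 2 ^ j)) * ∏' j : ℕ, (1 - t / 2 ^ (i + j + 1))

/-- the number `(1 - 1/2) (1 - 1/4) (1 - 1/8) ⋯` -/
noncomputable def κ : ℝ := ∏' i : ℕ, (1 - (1 : ℝ) / 2 ^ (i + 1))

/-- the numbers of elements of the two sets are `2 ^ f₁` and `2 ^ f₂`, `f₁, f₂ ≥ 1` and `r ≤ s` -/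
def Basic (a b : ℤ) : Prop := ∀ D : ℤ, Squarefree D →
  (Sel (a * D) (b * D ^ 2)).ncard = 2 ^ f₁ a b D ∧
  (Sel (-2 * (a * D)) ((a * D) ^ 2 - 4 * (b * D ^ 2))).ncard = 2 ^ f₂ a b D ∧
  1 ≤ f₁ a b D ∧ 1 ≤ f₂ a b D ∧ r a b D + 2 ≤ f₁ a b D + f₂ a b D

/-- the laws have the sum one -/
def Sums (a b : ℤ) : Prop := ∀ D₀ : ℤ, Squarefree D₀ →
  HasSum (law (τ a b D₀)) 1 ∧ HasSum (law (τ' a b D₀)) 1

open Classical in
/-- `𝒮` consists of squarefree positive integers and contains almost all of them -/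
def AlmostAll (𝒮 : Set ℕ) : Prop := (∀ D ∈ 𝒮, Squarefree D) ∧
  Tendsto (fun X : ℕ => (((Icc 1 X).filter fun D => D ∈ 𝒮).card : ℝ) /
    ((Icc 1 X).filter fun D => Squarefree D).card) atTop (nhds 1)

/-- the exponents of the twists by the elements of `s` follow the laws of parameters `t` and `t'` -/
def Laws (a b M : ℤ) (s : Finset ℕ) (t t' ε : ℝ) : Prop :=
  ∀ g : ℕ → ℝ, (∀ n, |g n| ≤ 2 ^ n) →
    |(∑ d ∈ s, g (f₁ a b (tw M d) - 1)) / s.card - ∑' n, g n * law t n| < ε ∧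
    |(∑ d ∈ s, g (f₂ a b (tw M d) - 1)) / s.card - ∑' n, g n * law t' n| < ε

open Classical in
/-- the number of the elements `d` of `s` such that the twist by `M ∘ d` is good -/
noncomputable def goods (a b M : ℤ) (s : Finset ℕ) : ℕ := (s.filter fun d => Good a b (tw M d)).card

/-- the proportion of the good twists by the elements of `s` is `κ` up to `ε` -/
def Share (a b M : ℤ) (s : Finset ℕ) (ε : ℝ) : Prop := |(goods a b M s : ℝ) / s.card - κ| < ε

/-- the laws in the local class of `D₀` -/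
def ClassLaws (a b M D₀ : ℤ) (c ε : ℝ) (D : ℕ) : Prop := (Class a b M D₀ D).Nonempty →
  c * D.divisors.card ≤ ((Class a b M D₀ D).card : ℝ) ∧
  Laws a b M (Class a b M D₀ D) (τ a b D₀) (τ' a b D₀) ε ∧
  (τ a b D₀ = 1 → Share a b M (Class a b M D₀ D) ε)

/-- the examples -/
def Examples (𝒮 : Set ℕ) : Prop :=
  (Exceptional 4 2 ∧ ∀ M : ℤ, Squarefree M → M < 0 → M % 2 = 1 → ∀ ε : ℝ, 0 < ε →
    ∀ᶠ D : ℕ in atTop, D ∈ 𝒮 → D % 2 = 1 → Laws 4 2 M D.divisors 1 1 ε ∧ Share 4 2 M D.divisors ε) ∧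
  (Exceptional 5 5 ∧ ∀ M : ℤ, Squarefree M → M < 0 → M % 4 = 2 → ∀ ε : ℝ, 0 < ε →
    ∀ᶠ D : ℕ in atTop, D ∈ 𝒮 → D % 2 = 1 → Laws 5 5 M D.divisors 1 1 ε ∧ Share 5 5 M D.divisors ε)

/-! ### The proof -/

open scoped Classical

/-- the data -/
def cd {a b : ℤ} (h : Exceptional a b) : Q44.BN.Cd := ⟨a, b, h.1, h.2.1, h.2.2⟩

lemma tau_eq {a b : ℤ} (h : Exceptional a b) (D : ℤ) : (cd h).tau D = τ a b D := rfl

lemma tau_eq' {a b : ℤ} (h : Exceptional a b) (D : ℤ) : (cd h).tau' D = τ' a b D := rfl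

lemma log_pow {n k : ℕ} (h : n = 2 ^ (k + 1)) : Nat.log 2 n = k + 1 := by
  rw [h]
  exact Nat.log_pow (by norm_num) _

lemma f₁_of {a b : ℤ} (h : Exceptional a b) {D : ℤ} (hD : Squarefree D) :
    ∃ i : ℕ, (cd h).nS D = 2 ^ (i + 1) ∧ f₁ a b D = i + 1 ∧
      (Sel (a * D) (b * D ^ 2)).ncard = 2 ^ (i + 1) := by
  obtain ⟨i, hi⟩ := ((cd h).pow_nS hD).2.2.1
  have e := (cd h).nS_eq hD.ne_zero
  rw [hi] at e
  have e' : (Sel (a * D) (b * D ^ 2)).ncard = 2 ^ (i + 1) := e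
  exact ⟨i, hi, log_pow e', e'⟩

lemma f₂_of {a b : ℤ} (h : Exceptional a b) {D : ℤ} (hD : Squarefree D) :
    ∃ i : ℕ, (cd h).nS' D = 2 ^ (i + 1) ∧ f₂ a b D = i + 1 ∧
      (Sel (-2 * (a * D)) ((a * D) ^ 2 - 4 * (b * D ^ 2))).ncard = 2 ^ (i + 1) := by
  obtain ⟨i, hi⟩ := ((cd h).pow_nS hD).2.2.2
  have e := (cd h).nS'_eq hD.ne_zero
  rw [hi] at e
  have e' : (Sel (-2 * (a * D)) ((a * D) ^ 2 - 4 * (b * D ^ 2))).ncard = 2 ^ (i + 1) := e
  exact ⟨i, hi, log_pow e', e'⟩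

lemma pow_iff {i j : ℕ} : 2 ^ (i + 1) = 2 ^ (j + 1) ↔ i + 1 = j + 1 :=
  ⟨fun h => Nat.pow_right_injective (le_refl 2) h, fun h => by rw [h]⟩

lemma f₁_iff {a b : ℤ} (h : Exceptional a b) {D : ℤ} (hD : Squarefree D) (i : ℕ) :
    (cd h).nS D = 2 ^ (i + 1) ↔ f₁ a b D = i + 1 := by
  obtain ⟨j, h1, h2, -⟩ := f₁_of h hD
  rw [h1, h2]
  exact pow_iff

lemma f₂_iff {a b : ℤ} (h : Exceptional a b) {D : ℤ} (hD : Squarefree D) (i : ℕ) :
    (cd h).nS' D = 2 ^ (i + 1) ↔ f₂ a b D = i + 1 := by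
  obtain ⟨j, h1, h2, -⟩ := f₂_of h hD
  rw [h1, h2]
  exact pow_iff

lemma rank_le {a b : ℤ} (h : Exceptional a b) {D : ℤ} (hD : Squarefree D) :
    r a b D + 2 ≤ f₁ a b D + f₂ a b D := by
  obtain ⟨i, h1, h2, -⟩ := f₁_of h hD
  obtain ⟨j, k1, k2, -⟩ := f₂_of h hD
  obtain ⟨hf, hle⟩ := (cd h).rs_le hD
  rw [h1, k1] at hle
  have hcard : 1 ≤ Nat.card {x : Pool.Agent.W262.SH.Sha ((cd h).Ed D) // x + x = 0} := by
    have : Nonempty {x : Pool.Agent.W262.SH.Sha ((cd h).Ed D) // x + x = 0} := ⟨⟨0, add_zero 0⟩⟩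
    exact Nat.card_pos
  have h3 : 2 ^ r a b D ≤ (cd h).rs D := Nat.le_mul_of_pos_right _ hcard
  have h4 : 2 ^ (r a b D + 2) ≤ 2 ^ ((i + 1) + (j + 1)) := by
    rw [pow_add, pow_add]
    have e : (2 : ℕ) ^ 2 = 4 := rfl
    rw [e]
    linarith
  have h5 := (Nat.pow_le_pow_iff_right (by norm_num : 1 < 2)).1 h4
  omega

lemma basic {a b : ℤ} (h : Exceptional a b) : Basic a b := by
  intro D hD
  obtain ⟨i, h1, h2, h3⟩ := f₁_of h hD
  obtain ⟨j, k1, k2, k3⟩ := f₂_of h hD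
  refine ⟨by rw [h2]; exact h3, by rw [k2]; exact k3, by omega, by omega, rank_le h hD⟩

lemma good_iff {a b : ℤ} (h : Exceptional a b) {D : ℤ} (hD : Squarefree D) :
    ((cd h).nS D = 2 ∧ (cd h).nS' D = 2) ↔ Good a b D := by
  have e1 := f₁_iff h hD 0
  have e2 := f₂_iff h hD 0
  rw [zero_add, pow_one] at e1 e2
  rw [e1, e2]
  constructor
  · rintro ⟨h1, h2⟩
    have h3 := rank_le h hD
    have hr : r a b D = 0 := by omega
    have hs : (cd h).rs D = 1 := by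
      have k1 := (cd h).rs_pos hD
      have k2 := ((cd h).rs_le hD).2
      rw [e1.2 h1, e2.2 h2] at k2
      omega
    have hc : Nat.card {x : Pool.Agent.W262.SH.Sha ((cd h).Ed D) // x + x = 0} = 1 := by
      have k : (cd h).rs D = 2 ^ r a b D *
        Nat.card {x : Pool.Agent.W262.SH.Sha ((cd h).Ed D) // x + x = 0} := rfl
      rw [hs, hr, pow_zero, one_mul] at k
      exact k.symm
    refine ⟨h1, h2, hr, ?_, ?_⟩
    · have h10 : ∀ x : Pool.Agent.W262.SH.Sha (E (a * D) (b * D ^ 2)), x + x = 0 → x = 0 := by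
        intro x hx
        obtain ⟨⟨h11⟩, -⟩ := Nat.card_eq_one_iff_unique.1 hc
        have h12 := h11 ⟨x, hx⟩ ⟨0, add_zero 0⟩
        exact congrArg Subtype.val h12
      intro x n
      induction n with
      | zero =>
        intro hx
        rwa [pow_zero, one_nsmul] at hx
      | succ n ih =>
        intro hx
        apply ih
        apply h10
        rw [← two_nsmul, ← mul_nsmul', ← pow_succ']
        exact hx
    · unfold Parity
      have g1 : f (a * D) (b * D ^ 2) = 1 := h1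
      have g2 : f (-2 * (a * D)) ((a * D) ^ 2 - 4 * (b * D ^ 2)) = 1 := h2
      have g3 : rank (a * D) (b * D ^ 2) = 0 := hr
      rw [g1, g2, g3]
      norm_num
  · rintro ⟨h1, h2, -⟩
    exact ⟨h1, h2⟩

lemma law_eq {t : ℝ} (ht : 0 ≤ t) (r : ℕ) : Q44.BC.lam t r = law t r := Q44.BN.lam_tprod ht r

lemma kappa_eq : Q44.BC.lam 1 0 = κ := by
  rw [Q44.BN.lam_tprod zero_le_one 0]
  unfold κ
  simp

lemma tw_eq {M : ℤ} (hM : M ≠ 0) (d : ℕ) : tw M d = _root_.Q155.NB.twz M d := by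
  have hg : (Int.gcd M d : ℤ) ^ 2 ≠ 0 := by
    have : Int.gcd M d ≠ 0 := fun h => hM (Int.gcd_eq_zero_iff.1 h).1
    exact pow_ne_zero 2 (by exact_mod_cast this)
  unfold tw
  rw [_root_.Q155.NB.twz_mul, Int.mul_ediv_cancel _ hg]

lemma class_eq {a b : ℤ} (h : Exceptional a b) {M : ℤ} (hM : M ≠ 0) (D₀ : ℤ) (D : ℕ) :
    Class a b M D₀ D = _root_.Q155.NB.cls (cd h) M D₀ D := by
  unfold Class _root_.Q155.NB.cls
  refine Finset.filter_congr fun d _ => ?_
  rw [tw_eq hM]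
  exact Iff.rfl

lemma law_fun {t : ℝ} (ht : 0 ≤ t) : Q44.BC.lam t = law t := funext (law_eq ht)

lemma taus {a b : ℤ} (h : Exceptional a b) {D₀ : ℤ} (hD : Squarefree D₀) :
    0 < τ a b D₀ ∧ 0 < τ' a b D₀ := by
  obtain ⟨⟨t1, t2⟩, -⟩ := (cd h).facts hD
  rw [tau_eq h] at t1
  rw [tau_eq' h] at t2
  exact ⟨t1, t2⟩

lemma sums {a b : ℤ} (h : Exceptional a b) : Sums a b := by
  intro D₀ hD
  obtain ⟨t1, t2⟩ := taus h hD
  refine ⟨?_, ?_⟩
  · rw [← law_fun t1.le]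
    exact Q44.BN.lam_hasSum t1.le
  · rw [← law_fun t2.le]
    exact Q44.BN.lam_hasSum t2.le

/-- the set of almost all the squarefree integers -/
lemma almost_all : ∃ 𝒮 : Set ℕ, AlmostAll 𝒮 ∧ _root_.Q155.NB.LS (fun D => D ∈ 𝒮) ∧
    _root_.Q155.NB.SmS (fun D => D ∈ 𝒮) := by
  obtain ⟨S, h1, h2, h3, h4⟩ := _root_.Q155.NB.ex_SP _root_.Q155.NB.prt
  refine ⟨{D | S D}, ⟨h1, h2.congr fun X => ?_⟩, h3, h4⟩
  unfold _root_.Q155.NL.cnt _root_.Q155.NL.cs
  refine congrArg₂ (fun x y : ℕ => (x : ℝ) / (y : ℝ)) ?_ ?_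
  · exact Q44.BO.cardS (fun D => Iff.rfl) _
  · exact Q44.BO.cardS (fun D => Iff.rfl) _

lemma bad_42 : bad 4 2 = {2} := by
  unfold bad
  have : (2 * (2 * (4 ^ 2 - 4 * 2)) : ℤ).natAbs = 2 ^ 5 := by norm_num
  rw [this, Nat.primeFactors_prime_pow (by norm_num) Nat.prime_two]

lemma bad_55 : bad 5 5 = {2, 5} := by
  unfold bad
  have : (2 * (5 * (5 ^ 2 - 4 * 5)) : ℤ).natAbs = 2 * 5 ^ 2 := by norm_num
  rw [this, Nat.primeFactors_mul (by norm_num) (by norm_num),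
    Nat.primeFactors_prime_pow (by norm_num) (by norm_num : Nat.Prime 5),
    Nat.Prime.primeFactors Nat.prime_two]
  rfl

lemma exc_42 : Exceptional 4 2 := by
  refine ⟨?_, by norm_num, ⟨4, by norm_num⟩⟩
  rintro ⟨r, hr⟩
  have h1 : r < 2 := by nlinarith
  have h2 : -2 < r := by nlinarith
  interval_cases r <;> norm_num at hr

lemma exc_55 : Exceptional 5 5 := by
  refine ⟨?_, by norm_num, ⟨5, by norm_num⟩⟩
  rintro ⟨r, hr⟩
  have h1 : r < 3 := by nlinarith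
  have h2 : -3 < r := by nlinarith
  interval_cases r <;> norm_num at hr

lemma tau_42 {D : ℤ} (h1 : D < 0) (h2 : D % 2 = 1) : τ 4 2 D = 1 ∧ τ' 4 2 D = 1 := by
  unfold τ τ'
  rw [bad_42]
  exact Q44.BN.ex1 h2 h1

lemma tau_55 {D : ℤ} (h1 : D < 0) (h2 : D % 4 = 2) : τ 5 5 D = 1 ∧ τ' 5 5 D = 1 := by
  unfold τ τ'
  rw [bad_55]
  exact Q44.BN.ex2 h2 h1

/-- the twists by odd integers -/
lemma tw_facts {M : ℤ} (hM : Squarefree M) (h0 : M < 0) {d : ℕ} (hd : Squarefree d)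
    (hodd : d % 2 = 1) : tw M d < 0 ∧ (M % 2 = 1 → tw M d % 2 = 1) ∧ (M % 4 = 2 → tw M d % 4 = 2) := by
  rw [tw_eq hM.ne_zero]
  have e1 := _root_.Q155.NB.twz_mul M d
  set t := _root_.Q155.NB.twz M d with ht
  set g : ℤ := (Int.gcd M d : ℤ) with hg
  have hd0 : (0 : ℤ) < d := by exact_mod_cast Nat.pos_of_ne_zero hd.ne_zero
  have hgd : g ∣ (d : ℤ) := Int.gcd_dvd_right M d
  obtain ⟨c, hc⟩ := hgd
  have hdo : (d : ℤ) % 2 = 1 := by omega
  have hgo : g % 2 = 1 := by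
    rcases Int.emod_two_eq_zero_or_one g with h | h
    · exfalso
      have h1 : (2 : ℤ) ∣ d := by
        rw [hc]
        exact Dvd.dvd.mul_right (Int.dvd_of_emod_eq_zero h) c
      omega
    · exact h
  have hg0 : g ≠ 0 := by
    rintro h
    rw [h] at hgo
    norm_num at hgo
  have hg4 : g ^ 2 % 4 = 1 := by
    rcases (by omega : g % 4 = 1 ∨ g % 4 = 3) with h | h <;> rw [sq, Int.mul_emod, h] <;> norm_num
  have hg2 : 0 < g ^ 2 := by positivity
  refine ⟨?_, fun h => ?_, fun h => ?_⟩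
  · have h1 : M * d < 0 := mul_neg_of_neg_of_pos h0 hd0
    rw [e1] at h1
    by_contra h2
    exact absurd (mul_nonneg (not_lt.1 h2) hg2.le) (not_le.2 h1)
  · have h1 : (M * d) % 2 = 1 := by rw [Int.mul_emod, h, hdo]; norm_num
    rw [e1] at h1
    rcases Int.emod_two_eq_zero_or_one t with h2 | h2
    · rw [Int.mul_emod, h2] at h1
      norm_num at h1
    · exact h2
  · have h1 : (M * d) % 4 = 2 := by
      rcases (by omega : (d : ℤ) % 4 = 1 ∨ (d : ℤ) % 4 = 3) with h2 | h2 <;>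
        rw [Int.mul_emod, h, h2] <;> norm_num
    rw [e1, Int.mul_emod, hg4, mul_one, Int.emod_emod_of_dvd _ (dvd_refl 4)] at h1
    exact h1

lemma odd_dvd {D d : ℕ} (hD : D % 2 = 1) (h : d ∣ D) : d % 2 = 1 := by
  obtain ⟨c, rfl⟩ := h
  rcases Nat.mod_two_eq_zero_or_one d with h1 | h1
  · rw [Nat.mul_mod, h1] at hD
    simp at hD
  · exact h1

lemma bal_42 {M : ℤ} (hM : Squarefree M) (h0 : M < 0) (h1 : M % 2 = 1) {D : ℕ} (hD : Squarefree D)
    (h2 : D % 2 = 1) : _root_.Q155.NB.Bal (cd exc_42) M D := by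
  intro d hd
  have hdd := Nat.dvd_of_mem_divisors hd
  obtain ⟨k1, k2, -⟩ := tw_facts hM h0 (hD.squarefree_of_dvd hdd) (odd_dvd h2 hdd)
  rw [tau_eq, tau_eq', ← tw_eq hM.ne_zero]
  exact tau_42 k1 (k2 h1)

lemma bal_55 {M : ℤ} (hM : Squarefree M) (h0 : M < 0) (h1 : M % 4 = 2) {D : ℕ} (hD : Squarefree D)
    (h2 : D % 2 = 1) : _root_.Q155.NB.Bal (cd exc_55) M D := by
  intro d hd
  have hdd := Nat.dvd_of_mem_divisors hd
  obtain ⟨k1, -, k2⟩ := tw_facts hM h0 (hD.squarefree_of_dvd hdd) (odd_dvd h2 hdd)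
  rw [tau_eq, tau_eq', ← tw_eq hM.ne_zero]
  exact tau_55 k1 (k2 h1)

/-- from the functions of the dimensions to the laws -/
lemma laws_of {a b : ℤ} (h : Exceptional a b) {M : ℤ} (hM : Squarefree M) {s : Finset ℕ} {t t' ε : ℝ}
    (hs : ∀ d ∈ s, Squarefree d) (ht : 0 ≤ t) (ht' : 0 ≤ t')
    (h1 : ∀ g : ℕ → ℝ, (∀ n, |g n| ≤ 2 ^ n) →
      |(∑ d ∈ s, g (Q44.BO.lg ((cd h).nS (_root_.Q155.NB.twz M d)))) / s.card -
        ∑' n, g n * Q44.BC.lam t n| < ε ∧
      |(∑ d ∈ s, g (Q44.BO.lg ((cd h).nS' (_root_.Q155.NB.twz M d)))) / s.card -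
        ∑' n, g n * Q44.BC.lam t' n| < ε) : Laws a b M s t t' ε := by
  intro g hg
  obtain ⟨k1, k2⟩ := h1 g hg
  rw [law_fun ht] at k1
  rw [law_fun ht'] at k2
  have g1 : ∑ d ∈ s, g (f₁ a b (tw M d) - 1) =
      ∑ d ∈ s, g (Q44.BO.lg ((cd h).nS (_root_.Q155.NB.twz M d))) :=
    Finset.sum_congr rfl fun d hd => by
      obtain ⟨i, e1, e2, -⟩ := f₁_of h (_root_.Q155.NB.twz_sqf hM (hs d hd))
      rw [tw_eq hM.ne_zero, e1, e2, Q44.BO.lg_pow, Nat.add_sub_cancel]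
  have g2 : ∑ d ∈ s, g (f₂ a b (tw M d) - 1) =
      ∑ d ∈ s, g (Q44.BO.lg ((cd h).nS' (_root_.Q155.NB.twz M d))) :=
    Finset.sum_congr rfl fun d hd => by
      obtain ⟨i, e1, e2, -⟩ := f₂_of h (_root_.Q155.NB.twz_sqf hM (hs d hd))
      rw [tw_eq hM.ne_zero, e1, e2, Q44.BO.lg_pow, Nat.add_sub_cancel]
  rw [g1, g2]
  exact ⟨k1, k2⟩

lemma goods_eq {a b : ℤ} (h : Exceptional a b) {M : ℤ} (hM : Squarefree M) {s : Finset ℕ}
    (hs : ∀ d ∈ s, Squarefree d) : goods a b M s =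
      (s.filter fun d => _root_.Q155.NB.Sm2 (cd h) (_root_.Q155.NB.twz M d)).card := by
  unfold goods
  refine congrArg Finset.card (Finset.filter_congr fun d hd => ?_)
  rw [tw_eq hM.ne_zero]
  exact (good_iff h (_root_.Q155.NB.twz_sqf hM (hs d hd))).symm

lemma share_of {a b : ℤ} (h : Exceptional a b) {M : ℤ} (hM : Squarefree M) {s : Finset ℕ} {ε : ℝ}
    (hs : ∀ d ∈ s, Squarefree d)
    (h1 : |((s.filter fun d => _root_.Q155.NB.Sm2 (cd h) (_root_.Q155.NB.twz M d)).card : ℝ) /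
      s.card - Q44.BC.lam 1 0| < ε) : Share a b M s ε := by
  unfold Share
  rw [goods_eq h hM hs, ← kappa_eq]
  exact h1

/-- the balanced case -/
lemma explicit {a b : ℤ} (h : Exceptional a b) {𝒮 : Set ℕ} (hs : AlmostAll 𝒮)
    (hL : _root_.Q155.NB.LS (fun D => D ∈ 𝒮)) (hG : _root_.Q155.NB.SmS (fun D => D ∈ 𝒮)) {M : ℤ}
    (hM : Squarefree M) {ε : ℝ} (hε : 0 < ε) :
    ∀ᶠ D : ℕ in atTop, D ∈ 𝒮 → _root_.Q155.NB.Bal (cd h) M D →
      Laws a b M D.divisors 1 1 ε ∧ Share a b M D.divisors ε := by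
  have h1 := _root_.Q155.NB.bal_all (e := cd h) _root_.Q155.NB.prt (fun D hD => hs.1 D hD) hL hM hε
  have h2 := _root_.Q155.NB.bal_sm (e := cd h) (fun D hD => hs.1 D hD) hG hM hε
  filter_upwards [h1, h2] with D hD hD' hDS hB
  obtain ⟨-, -, -, k⟩ := hD hDS hB
  have hsq : ∀ d ∈ D.divisors, Squarefree d := fun d hd =>
    (hs.1 D hDS).squarefree_of_dvd (Nat.dvd_of_mem_divisors hd)
  exact ⟨laws_of h hM hsq zero_le_one zero_le_one k, share_of h hM hsq (hD' hDS hB)⟩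

lemma class_laws {a b : ℤ} (h : Exceptional a b) {𝒮 : Set ℕ} (hs : AlmostAll 𝒮)
    (hL : _root_.Q155.NB.LS (fun D => D ∈ 𝒮)) (hG : _root_.Q155.NB.SmS (fun D => D ∈ 𝒮)) {M D₀ : ℤ}
    (hM : Squarefree M) (hD₀ : Squarefree D₀) {ε : ℝ} (hε : 0 < ε) :
    ∀ᶠ D : ℕ in atTop, D ∈ 𝒮 → ClassLaws a b M D₀ (_root_.Q155.NB.c00 (cd h)) ε D := by
  have hG' : ∀ᶠ D : ℕ in atTop, D ∈ 𝒮 → (_root_.Q155.NB.cls (cd h) M D₀ D).Nonempty →
      τ a b D₀ = 1 → |(((_root_.Q155.NB.cls (cd h) M D₀ D).filter fun d =>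
        _root_.Q155.NB.Sm2 (cd h) (_root_.Q155.NB.twz M d)).card : ℝ) /
          (_root_.Q155.NB.cls (cd h) M D₀ D).card - Q44.BC.lam 1 0| < ε := by
    by_cases ht : τ a b D₀ = 1
    · exact (hG (cd h) M D₀ hM hD₀ (by rw [tau_eq h, ht]) ε hε).mono fun D hD h1 h2 _ => hD h1 h2
    · exact Filter.Eventually.of_forall fun D _ _ h1 => absurd h1 ht
  filter_upwards [hL (cd h) M D₀ hM hD₀ ε hε, hG'] with D hD hD' hDS hne
  rw [class_eq h hM.ne_zero] at hne ⊢
  have h1 := hD hDS hne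
  have hDs := hs.1 D hDS
  have hsq : ∀ d ∈ _root_.Q155.NB.cls (cd h) M D₀ D, Squarefree d := fun d hd =>
    hDs.squarefree_of_dvd (Nat.dvd_of_mem_divisors (Finset.mem_filter.1 hd).1)
  obtain ⟨t1, t2⟩ := taus h hD₀
  refine ⟨h1.low, laws_of h hM hsq t1.le t2.le fun g hg => ?_, fun ht =>
    share_of h hM hsq (hD' hDS hne ht)⟩
  have h2 := h1.fn _root_.Q155.NB.prt hM hD₀ hDs hg
  rw [tau_eq, tau_eq'] at h2
  exact h2

lemma tw_one {M : ℤ} (hM : Squarefree M) : tw M 1 = M := by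
  unfold tw
  rw [Nat.cast_one, mul_one, Int.gcd_one]
  norm_num

lemma many {a b : ℤ} (h : Exceptional a b) {𝒮 : Set ℕ} (hs : AlmostAll 𝒮)
    (hL : _root_.Q155.NB.LS (fun D => D ∈ 𝒮)) (hG : _root_.Q155.NB.SmS (fun D => D ∈ 𝒮)) {M : ℤ}
    (hM : Squarefree M) (ht : τ a b M = 1) :
    ∀ᶠ D : ℕ in atTop, D ∈ 𝒮 → _root_.Q155.NB.c00 (cd h) * 0.28 * D.divisors.card ≤
      (goods a b M D.divisors : ℝ) := by
  filter_upwards [class_laws h hs hL hG hM hM (ε := 0.008) (by norm_num)] with D hD hDS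
  have hDs := hs.1 D hDS
  have hne : (Class a b M M D).Nonempty := by
    refine ⟨1, Finset.mem_filter.2 ⟨Nat.one_mem_divisors.2 hDs.ne_zero, ?_⟩⟩
    rw [tw_one hM]
    exact _root_.Q155.NB.same_refl hM.ne_zero
  obtain ⟨k1, -, k3⟩ := hD hDS hne
  have k4 := k3 ht
  unfold Share at k4
  have hn : (0 : ℝ) < (Class a b M M D).card := by exact_mod_cast Finset.card_pos.2 hne
  have hκ : 0.288 < κ := by
    rw [← kappa_eq]
    exact Q44.BN.lam_one.1
  have k5 : (0.28 : ℝ) ≤ (goods a b M (Class a b M M D) : ℝ) / (Class a b M M D).card := by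
    rw [abs_lt] at k4
    linarith [k4.1]
  rw [le_div_iff₀ hn] at k5
  have k6 : (goods a b M (Class a b M M D) : ℝ) ≤ (goods a b M D.divisors : ℝ) := by
    refine Nat.cast_le.2 (Finset.card_le_card ?_)
    exact Finset.filter_subset_filter _ (Finset.filter_subset _ _)
  calc _root_.Q155.NB.c00 (cd h) * 0.28 * D.divisors.card
      = 0.28 * (_root_.Q155.NB.c00 (cd h) * D.divisors.card) := by ring
    _ ≤ 0.28 * (Class a b M M D).card := mul_le_mul_of_nonneg_left k1 (by norm_num)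
    _ ≤ _ := k5.trans k6

/-- **The parity of the ranks and of the 2-isogeny Selmer ranks of the twists by the divisors of `D`.** -/
theorem result : (∀ a b : ℤ, Exceptional a b → Basic a b ∧ Sums a b ∧
      ∃ D₀ : ℤ, Squarefree D₀ ∧ τ a b D₀ = 1) ∧ (0.288 < κ ∧ κ < 0.290) ∧
    ∃ 𝒮 : Set ℕ, AlmostAll 𝒮 ∧ (∀ a b : ℤ, Exceptional a b → ∃ c : ℝ, 0 < c ∧
      (∀ M D₀ : ℤ, Squarefree M → Squarefree D₀ → ∀ ε : ℝ, 0 < ε →
        ∀ᶠ D : ℕ in atTop, D ∈ 𝒮 → ClassLaws a b M D₀ c ε D) ∧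
      ∀ M : ℤ, Squarefree M → τ a b M = 1 → ∀ᶠ D : ℕ in atTop, D ∈ 𝒮 →
        c * D.divisors.card ≤ (goods a b M D.divisors : ℝ)) ∧ Examples 𝒮 := by
  refine ⟨fun a b h => ⟨basic h, sums h, (cd h).ex_bal⟩, ?_, ?_⟩
  · rw [← kappa_eq]
    exact Q44.BN.lam_one
  obtain ⟨𝒮, hs, hL, hG⟩ := almost_all
  refine ⟨𝒮, hs, fun a b h => ?_, ⟨exc_42, fun M hM h0 h1 ε hε => ?_⟩,
    exc_55, fun M hM h0 h1 ε hε => ?_⟩
  · have hc := _root_.Q155.NB.c00_pos (cd h)
    refine ⟨_root_.Q155.NB.c00 (cd h) * 0.28, by positivity, fun M D₀ hM hD₀ ε hε => ?_,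
      fun M hM ht => many h hs hL hG hM ht⟩
    filter_upwards [class_laws h hs hL hG hM hD₀ hε] with D hD hDS hne
    obtain ⟨k1, k2, k3⟩ := hD hDS hne
    refine ⟨le_trans ?_ k1, k2, k3⟩
    have hn : (0 : ℝ) ≤ D.divisors.card := Nat.cast_nonneg _
    nlinarith
  · filter_upwards [explicit exc_42 hs hL hG hM hε] with D hD hDS h2
    exact hD hDS (bal_42 hM h0 h1 (hs.1 D hDS) h2)
  · filter_upwards [explicit exc_55 hs hL hG hM hε] with D hD hDS h2
    exact hD hDS (bal_55 hM h0 h1 (hs.1 D hDS) h2)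

end Pool.Agent.Results.MP_e2b281_nt.ParityOverDivisors
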