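import Pool.Agent.Q44.PY.Tw
import Pool.Agent.Q44.PY.Ht
import Pool.Agent.Q269.IsoFour.Four

/-!
# The parity of the rank and of the 2-isogeny Selmer rank for the curves with a rational cyclic isogeny of
# degree four

**All the quadratic twists.** Let `E : y² = x³ + a x² + b x`, `a` and `b` integers such that `b` and `a² - 4 b`
are squares different from `0`. These are the curves with full rational `2`-torsion and a rational cyclic
isogeny of degree four with kernel containing `(0, 0)`; the isogenous curve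
`E' : y² = x³ - 2 a x² + (a² - 4 b) x` is of the same kind. They are excluded in the theorems on the
distribution of the Selmer groups of the quadratic twists. Let `E_D : y² = x³ + a D x² + b D² x`, for *all*
squarefree integers `D`, let `r` be the rank of `E_D`, `f₁` and `f₂` the exponents of the descent,
`s = f₁ + f₂ - 2`. In the local class of a squarefree `D₀` (the same sign and the same square class at the
primes which divide `2 b (a² - 4 b)`) the exponents `f₁ = i + 1` and `f₂ = i + 1` have the proportions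
`law τ i` and `law τ' i`, `τ` and `τ'` the products of the local Tamagawa ratios of `E_{D₀}` and `E'_{D₀}`; if
`τ = 1` then the proportion of the `D` with `f₁ = f₂ = 1`, `r = 0 = s` and trivial `2`-primary part of the
Tate-Shafarevich group is exactly `∏_{i ≥ 1} (1 - 1 / 2 ^ i) = 0.288…`; *every* one of these curves has local
classes with `τ = 1`; so the parity statement holds for a positive proportion of all its quadratic twists.

**All the curves.** Order the elliptic curves over `ℚ` with a rational cyclic subgroup of order `4` by the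
height. A positive proportion of them is isomorphic to a curve `C : y² = x³ + a x² + s² x` (here `(0, 0)` is
the point of order two in the cyclic subgroup) such that `C(ℚ)` is finite and the parity statement holds for
`C` and for the isogenous curve `C' : y² = x³ - 2 a x² + (a² - 4 s²) x`.
-/

set_option autoImplicit false

open Finset Filter

namespace Pool.Agent.Results.MP_e2b281_nt.RationalFourIsogeny

/-- the curve `y² = x³ + A x² + B x` over `ℚ` -/
def M (A B : ℤ) : WeierstrassCurve ℚ :=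
  { a₁ := 0, a₂ := (A : ℚ), a₃ := 0, a₄ := (B : ℚ), a₆ := 0 }

/-- the rank of the group of the rational points of `y² = x³ + A x² + B x` -/
noncomputable def rank (A B : ℤ) : ℕ := Module.finrank ℤ (M A B).toAffine.Point

open Classical in
/-- the Tate-Shafarevich group of `y² = x³ + A x² + B x` contains no element of `2`-power order different
from `0` -/
def NoSha (A B : ℤ) : Prop :=
  ∀ (x : Pool.Agent.W262.SH.Sha (M A B)) (n : ℕ), 2 ^ n • x = 0 → x = 0

/-- the quartic `N² = b₁ M⁴ + A M² e² + (B / b₁) e⁴` has a solution with `(M, e) ≠ (0, 0)` in `K` -/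
def Solvable (K : Type) [Field K] (A B b₁ : ℤ) : Prop := ∃ N M e : K, (M ≠ 0 ∨ e ≠ 0) ∧
  N ^ 2 = (b₁ : K) * M ^ 4 + (A : K) * M ^ 2 * e ^ 2 + ((B / b₁ : ℤ) : K) * e ^ 4

/-- the squarefree divisors `b₁` of `B` (positive or negative) with an everywhere locally solvable
quartic -/
def Sel (A B : ℤ) : Set ℤ := {b₁ | Squarefree b₁ ∧ b₁ ∣ B ∧ Solvable ℝ A B b₁ ∧
  ∀ (p : ℕ) [Fact p.Prime], Solvable ℚ_[p] A B b₁}

/-- the exponent `f` for `(A, B)`, defined by `#Sel = 2 ^ f` -/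
noncomputable def f (A B : ℤ) : ℕ := Nat.log 2 (Sel A B).ncard

/-- the parity statement for the curve `y² = x³ + A x² + B x`: `r ≡ s = f₁ + f₂ - 2` modulo two -/
def Parity (A B : ℤ) : Prop :=
  (rank A B : ℤ) ≡ (f A B : ℤ) + f (-2 * A) (A ^ 2 - 4 * B) - 2 [ZMOD 2]

/-- the curves: `b` and `a² - 4 b` are squares different from `0` -/
def Curves (a b : ℤ) : Prop :=
  (b ≠ 0 ∧ IsSquare b) ∧ (a ^ 2 - 4 * b ≠ 0 ∧ IsSquare (a ^ 2 - 4 * b))

/-- the rank of the twist `E_D : y² = x³ + a D x² + b D² x` -/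
noncomputable def r (a b D : ℤ) : ℕ := rank (a * D) (b * D ^ 2)

/-- the exponent `f₁` of `E_D` -/
noncomputable def f₁ (a b D : ℤ) : ℕ := f (a * D) (b * D ^ 2)

/-- the exponent `f₂` of `E_D` -/
noncomputable def f₂ (a b D : ℤ) : ℕ := f (-2 * (a * D)) ((a * D) ^ 2 - 4 * (b * D ^ 2))

/-- `f₁ = f₂ = 1`, the rank is `0`, the `2`-part of the Tate-Shafarevich group is trivial and the parity
statement holds for `E_D` -/
def Good (a b D : ℤ) : Prop := f₁ a b D = 1 ∧ f₂ a b D = 1 ∧ r a b D = 0 ∧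
  NoSha (a * D) (b * D ^ 2) ∧ Parity (a * D) (b * D ^ 2)

/-- the group of the square classes of a field -/
abbrev SquareClasses (K : Type) [Field K] : Type := Kˣ ⧸ (powMonoidHom 2 : Kˣ →* Kˣ).range

/-- the square classes of the abscissae of the points over `K` of `y² = x³ + A x² + B x` -/
def image (K : Type) [Field K] (A B : ℤ) : Set (SquareClasses K) :=
  {c | ∃ (x : Kˣ) (y : K), y ^ 2 = (x : K) ^ 3 + (A : K) * (x : K) ^ 2 + (B : K) * (x : K) ∧
    c = QuotientGroup.mk x}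

open Classical in
/-- the number of these classes over `ℚ_p` -/
noncomputable def imageCard (A B : ℤ) (p : ℕ) : ℕ :=
  if h : p.Prime then (haveI : Fact p.Prime := ⟨h⟩; Nat.card (image ℚ_[p] A B)) else 1

/-- the primes which divide `2 b (a² - 4 b)` -/
def bad (a b : ℤ) : Finset ℕ := (2 * (b * (a ^ 2 - 4 * b))).natAbs.primeFactors

/-- the product over the primes of `S` and the infinite place of `1/2` times the number of the classes -/
noncomputable def ratio (S : Finset ℕ) (A B : ℤ) : ℝ :=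
  (((∏ p ∈ S, imageCard A B p) * Nat.card (image ℝ A B) : ℕ) : ℝ) / 2 ^ (S.card + 1)

/-- the constant of the curve `E_D` -/
noncomputable def τ (a b D : ℤ) : ℝ := ratio (bad a b) (a * D) (b * D ^ 2)

/-- the constant of the isogenous curve `E_D'` -/
noncomputable def τ' (a b D : ℤ) : ℝ :=
  ratio (bad a b) (-2 * (a * D)) ((a * D) ^ 2 - 4 * (b * D ^ 2))

/-- `D` and `D₀` have the same sign and the same square classes at the bad primes -/
def Same (a b D₀ D : ℤ) : Prop := 0 < D₀ * D ∧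
  ∀ (p : ℕ) [Fact p.Prime], (p : ℤ) ∣ 2 * (b * (a ^ 2 - 4 * b)) → IsSquare ((D₀ * D : ℤ) : ℚ_[p])

open Classical in
/-- the number of the squarefree `D` with `|D| ≤ X` in the local class of `D₀` with the property `P` -/
noncomputable def count (a b D₀ : ℤ) (P : ℤ → Prop) (X : ℕ) : ℕ :=
  ((Icc (-(X : ℤ)) X).filter fun D => Squarefree D ∧ Same a b D₀ D ∧ P D).card

open Classical in
/-- the number of all the squarefree `D` with `|D| ≤ X` with the property `P` -/
noncomputable def total (P : ℤ → Prop) (X : ℕ) : ℕ :=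
  ((Icc (-(X : ℤ)) X).filter fun D => Squarefree D ∧ P D).card

/-- the `D` with the property `P` have the proportion `c` in the local class of `D₀` -/
def Proportion (a b D₀ : ℤ) (P : ℤ → Prop) (c : ℝ) : Prop :=
  Tendsto (fun X : ℕ => (count a b D₀ P X : ℝ) / (count a b D₀ (fun _ => True) X : ℝ)) atTop (nhds c)

/-- the law of the exponents -/
noncomputable def law (t : ℝ) (i : ℕ) : ℝ :=
  t ^ i / (∏ j ∈ range i, ((2 : ℝ) ^ i - 2 ^ j)) * ∏' j : ℕ, (1 - t / 2 ^ (i + j + 1))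

/-- the number `(1 - 1/2) (1 - 1/4) (1 - 1/8) ⋯` -/
noncomputable def κ : ℝ := ∏' i : ℕ, (1 - (1 : ℝ) / 2 ^ (i + 1))

/-- the numbers of elements of the two sets are `2 ^ f₁` and `2 ^ f₂`, and `r ≤ s` -/
def Basic (a b : ℤ) : Prop := ∀ D : ℤ, Squarefree D →
  (Sel (a * D) (b * D ^ 2)).ncard = 2 ^ f₁ a b D ∧
  (Sel (-2 * (a * D)) ((a * D) ^ 2 - 4 * (b * D ^ 2))).ncard = 2 ^ f₂ a b D ∧
  r a b D + 2 ≤ f₁ a b D + f₂ a b D

/-- large values of `s` on all the squarefree integers -/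
def Tails (a b : ℤ) : Prop := ∃ C : ℝ, 0 < C ∧ ∀ R : ℕ, ∀ᶠ X : ℕ in atTop,
  (total (fun D => 2 * R + 2 < f₁ a b D + f₂ a b D) X : ℝ) ≤
    C ^ (R + 1) / 2 ^ ((R + 1) * R) * (total (fun _ => True) X : ℝ)

/-- the local class of `D₀` has positive lower density -/
def Dense (a b D₀ : ℤ) : Prop := ∃ η : ℝ, 0 < η ∧
  ∀ᶠ X : ℕ in atTop, η * (X : ℝ) ≤ (count a b D₀ (fun _ => True) X : ℝ)

/-- the laws of the two exponents in the local class of `D₀` -/
def Laws (a b D₀ : ℤ) : Prop :=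
  (HasSum (law (τ a b D₀)) 1 ∧ HasSum (law (τ' a b D₀)) 1) ∧ ∀ i : ℕ,
    Proportion a b D₀ (fun D => f₁ a b D = i + 1) (law (τ a b D₀) i) ∧
    Proportion a b D₀ (fun D => f₂ a b D = i + 1) (law (τ' a b D₀) i)

/-- a balanced class exists, and the positive proportion among all the twists -/
def Positive (a b : ℤ) : Prop := (∃ D₀ : ℤ, Squarefree D₀ ∧ τ a b D₀ = 1) ∧
  ∃ η : ℝ, 0 < η ∧ ∀ᶠ X : ℕ in atTop, η * (X : ℝ) ≤ (total (Good a b) X : ℝ)

/-- explicit balanced classes for the curve `y² = x (x + r²) (x + s²)` -/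
def Explicit : Prop := ∀ r s D : ℤ, IsCoprime r s → r * s * (r ^ 2 - s ^ 2) ≠ 0 → Squarefree D →
  (∀ p : ℕ, p.Prime → (p : ℤ) ∣ 2 * (r * s * (r ^ 2 - s ^ 2)) → (p : ℤ) ∣ D) →
  (r * s % 2 = 1 → 0 < D) → (r * s % 2 = 0 → D < 0) →
  Curves (r ^ 2 + s ^ 2) ((r * s) ^ 2) ∧
    τ (r ^ 2 + s ^ 2) ((r * s) ^ 2) D = 1 ∧ τ' (r ^ 2 + s ^ 2) ((r * s) ^ 2) D = 1

/-- the curve `y² = x³ + A x + B` over the field `K` -/
def E (K : Type) [Field K] (A B : ℤ) : WeierstrassCurve K := ⟨0, 0, 0, (A : K), (B : K)⟩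

/-- isomorphic over `ℚ` -/
def Iso (W W' : WeierstrassCurve ℚ) : Prop :=
  ∃ C : WeierstrassCurve.VariableChange ℚ, C • W = W'

/-- There is a complex point `P` of order 4 with a rational abscissa on `y² = x³ + A x + B`. As the
elements of order 4 of the group generated by `P` are `P` and `-P`, and these are the points of the
curve with the abscissa of `P`, this says that the cyclic group of order 4 generated by `P` is
stable under the Galois group, so that it is a rational cyclic subgroup of order 4 of the curve. -/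
def HasCyclicFour (c : ℤ × ℤ) : Prop :=
  ∃ (x : ℚ) (y : ℂ) (h : (E ℂ c.1 c.2).toAffine.Nonsingular (x : ℂ) y),
    addOrderOf (WeierstrassCurve.Affine.Point.some (x : ℂ) y h) = 4

/-- The pairs `(A, B)` of integers such that `4 A³ + 27 B² ≠ 0`, there is no prime `p` with
`p⁴ ∣ A` and `p⁶ ∣ B`, the curve `y² = x³ + A x + B` has a rational cyclic subgroup of order 4, and
the height `max (4 |A|³) (27 B²)` is at most `H`. Every elliptic curve over `ℚ` with a rational
cyclic subgroup of order 4 is isomorphic to `E ℚ A B` for exactly one pair with the first three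
properties. -/
def Fam (H : ℕ) : Set (ℤ × ℤ) :=
  {c : ℤ × ℤ | 4 * c.1 ^ 3 + 27 * c.2 ^ 2 ≠ 0 ∧
    (∀ p : ℕ, p.Prime → ¬ ((p : ℤ) ^ 4 ∣ c.1 ∧ (p : ℤ) ^ 6 ∣ c.2)) ∧
    HasCyclicFour c ∧ 4 * |c.1| ^ 3 ≤ H ∧ 27 * c.2 ^ 2 ≤ H}

/-- the proportion of the curves of `S` among the curves of height at most `H` -/
noncomputable def proportion (S : Set (ℤ × ℤ)) (H : ℕ) : ℝ :=
  ((Fam H ∩ S).ncard : ℝ) / (Fam H).ncard

/-- the two sets of the descent for `y² = x³ + a x² + b x` have `2 ^ f₁` and `2 ^ f₂` elements, and the parity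
statement holds -/
def Full (a b : ℤ) : Prop := (Sel a b).ncard = 2 ^ f a b ∧
  (Sel (-2 * a) (a ^ 2 - 4 * b)).ncard = 2 ^ f (-2 * a) (a ^ 2 - 4 * b) ∧ Parity a b

/-- The curves which are isomorphic to a curve `C : y² = x³ + a x² + s² x` with finitely many rational points
such that the parity statement holds for `C` and for `C' : y² = x³ - 2 a x² + (a² - 4 s²) x`. -/
def GoodModel : Set (ℤ × ℤ) := {c | ∃ a s : ℤ, Iso (M a (s ^ 2)) (E ℚ c.1 c.2) ∧
  Finite (M a (s ^ 2)).toAffine.Point ∧ Full a (s ^ 2) ∧ Full (-2 * a) (a ^ 2 - 4 * s ^ 2)}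

/-- the curves with a rational cyclic subgroup of order 4, ordered by the height -/
def Heights : Prop := (∀ H : ℕ, (Fam H).Finite) ∧ (∃ c C : ℝ, 0 < c ∧ ∀ᶠ H : ℕ in atTop,
    c * (H : ℝ) ^ ((1 : ℝ) / 3) ≤ (Fam H).ncard ∧ ((Fam H).ncard : ℝ) ≤ C * (H : ℝ) ^ ((1 : ℝ) / 3)) ∧
  ∃ δ : ℝ, 0 < δ ∧ ∀ᶠ H : ℕ in atTop, δ ≤ proportion GoodModel H

/-! ### The proof -/

open scoped Classical

/-- the data -/
def cd {a b : ℤ} (h : Curves a b) : Q44.BS.Cz := ⟨a, b, h.1.1, h.1.2, h.2.1, h.1.2.mul h.2.2⟩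

lemma tau_eq {a b : ℤ} (h : Curves a b) (D : ℤ) : (cd h).tau D = τ a b D := rfl

lemma tau_eq' {a b : ℤ} (h : Curves a b) (D : ℤ) : (cd h).tau' D = τ' a b D := rfl

lemma f₁_of {a b : ℤ} (h : Curves a b) {D : ℤ} (hD : Squarefree D) :
    ∃ i : ℕ, (cd h).nS D = 2 ^ i ∧ f₁ a b D = i ∧ (Sel (a * D) (b * D ^ 2)).ncard = 2 ^ i := by
  obtain ⟨i, hi⟩ := ((cd h).pow_all hD).1
  have e := (cd h).nS_eq hD.ne_zero
  rw [hi] at e
  have e' : (Sel (a * D) (b * D ^ 2)).ncard = 2 ^ i := e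
  refine ⟨i, hi, ?_, e'⟩
  show Nat.log 2 (Sel (a * D) (b * D ^ 2)).ncard = i
  rw [e']
  exact Nat.log_pow (by norm_num) _

lemma f₂_of {a b : ℤ} (h : Curves a b) {D : ℤ} (hD : Squarefree D) :
    ∃ i : ℕ, (cd h).nS' D = 2 ^ i ∧ f₂ a b D = i ∧
      (Sel (-2 * (a * D)) ((a * D) ^ 2 - 4 * (b * D ^ 2))).ncard = 2 ^ i := by
  obtain ⟨i, hi⟩ := ((cd h).pow_all hD).2
  have e := (cd h).nS'_eq hD.ne_zero
  rw [hi] at e
  have e' : (Sel (-2 * (a * D)) ((a * D) ^ 2 - 4 * (b * D ^ 2))).ncard = 2 ^ i := e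
  refine ⟨i, hi, ?_, e'⟩
  show Nat.log 2 (Sel (-2 * (a * D)) ((a * D) ^ 2 - 4 * (b * D ^ 2))).ncard = i
  rw [e']
  exact Nat.log_pow (by norm_num) _

lemma pow_iff {i j : ℕ} : 2 ^ i = 2 ^ j ↔ i = j :=
  ⟨fun h => Nat.pow_right_injective (le_refl 2) h, fun h => by rw [h]⟩

lemma f₁_iff {a b : ℤ} (h : Curves a b) {D : ℤ} (hD : Squarefree D) (i : ℕ) :
    (cd h).nS D = 2 ^ i ↔ f₁ a b D = i := by
  obtain ⟨j, h1, h2, -⟩ := f₁_of h hD
  rw [h1, h2]
  exact pow_iff

lemma f₂_iff {a b : ℤ} (h : Curves a b) {D : ℤ} (hD : Squarefree D) (i : ℕ) :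
    (cd h).nS' D = 2 ^ i ↔ f₂ a b D = i := by
  obtain ⟨j, h1, h2, -⟩ := f₂_of h hD
  rw [h1, h2]
  exact pow_iff

lemma rank_le {a b : ℤ} (h : Curves a b) {D : ℤ} (hD : Squarefree D) :
    r a b D + 2 ≤ f₁ a b D + f₂ a b D := by
  obtain ⟨i, h1, h2, -⟩ := f₁_of h hD
  obtain ⟨j, k1, k2, -⟩ := f₂_of h hD
  obtain ⟨hf, hle⟩ := (cd h).rs_le hD
  rw [h1, k1] at hle
  have hcard : 1 ≤ Nat.card {x : Pool.Agent.W262.SH.Sha ((cd h).Ed D) // x + x = 0} := by
    have : Nonempty {x : Pool.Agent.W262.SH.Sha ((cd h).Ed D) // x + x = 0} := ⟨⟨0, add_zero 0⟩⟩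
    exact Nat.card_pos
  have h3 : 2 ^ r a b D ≤ (cd h).rs D := Nat.le_mul_of_pos_right _ hcard
  have h4 : 2 ^ (r a b D + 2) ≤ 2 ^ (i + j) := by
    rw [pow_add, pow_add]
    have e : (2 : ℕ) ^ 2 = 4 := rfl
    rw [e]
    linarith
  have h5 := (Nat.pow_le_pow_iff_right (by norm_num : 1 < 2)).1 h4
  omega

lemma basic {a b : ℤ} (h : Curves a b) : Basic a b := by
  intro D hD
  obtain ⟨i, h1, h2, h3⟩ := f₁_of h hD
  obtain ⟨j, k1, k2, k3⟩ := f₂_of h hD
  refine ⟨by rw [h2]; exact h3, by rw [k2]; exact k3, rank_le h hD⟩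

lemma good_iff {a b : ℤ} (h : Curves a b) {D : ℤ} (hD : Squarefree D) :
    ((cd h).nS D = 2 ∧ (cd h).nS' D = 2) ↔ Good a b D := by
  have e1 := f₁_iff h hD 1
  have e2 := f₂_iff h hD 1
  rw [pow_one] at e1 e2
  rw [e1, e2]
  constructor
  · rintro ⟨h1, h2⟩
    have h3 := rank_le h hD
    have hr : r a b D = 0 := by omega
    have hs : (cd h).rs D = 1 := by
      have k1 := (cd h).rs_pos hD
      have k2 := ((cd h).rs_le hD).2
      rw [e1.2 h1, e2.2 h2] at k2
      omega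
    have hc : Nat.card {x : Pool.Agent.W262.SH.Sha ((cd h).Ed D) // x + x = 0} = 1 := by
      have k : (cd h).rs D = 2 ^ r a b D *
        Nat.card {x : Pool.Agent.W262.SH.Sha ((cd h).Ed D) // x + x = 0} := rfl
      rw [hs, hr, pow_zero, one_mul] at k
      exact k.symm
    refine ⟨h1, h2, hr, ?_, ?_⟩
    · have h10 : ∀ x : Pool.Agent.W262.SH.Sha (M (a * D) (b * D ^ 2)), x + x = 0 → x = 0 := by
        intro x hx
        obtain ⟨⟨h11⟩, -⟩ := Nat.card_eq_one_iff_unique.1 hc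
        have h12 := h11 ⟨x, hx⟩ ⟨0, add_zero 0⟩
        exact congrArg Subtype.val h12
      intro x n
      induction n with
      | zero =>
        intro hx
        rwa [pow_zero, one_nsmul] at hx
      | succ n ih =>
        intro hx
        apply ih
        apply h10
        rw [← two_nsmul, ← mul_nsmul', ← pow_succ']
        exact hx
    · unfold Parity
      have g1 : f (a * D) (b * D ^ 2) = 1 := h1
      have g2 : f (-2 * (a * D)) ((a * D) ^ 2 - 4 * (b * D ^ 2)) = 1 := h2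
      have g3 : rank (a * D) (b * D ^ 2) = 0 := hr
      rw [g1, g2, g3]
      norm_num
  · rintro ⟨h1, h2, -⟩
    exact ⟨h1, h2⟩

lemma count_eq (a b D₀ : ℤ) (P : ℤ → Prop) (X : ℕ)
    {i : DecidablePred fun D => Q44.BN.Same a b D₀ D ∧ P D} : count a b D₀ P X =
      ((Q44.BN.Sq X).filter fun D => Q44.BN.Same a b D₀ D ∧ P D).card := by
  unfold count
  congr 1
  ext D
  unfold Q44.BN.Sq
  rw [mem_filter, mem_filter, mem_filter, and_assoc]
  rfl

lemma total_eq (P : ℤ → Prop) (X : ℕ) {i : DecidablePred P} : total P X =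
    ((Q44.BN.Sq X).filter P).card := by
  unfold total
  congr 1
  ext D
  unfold Q44.BN.Sq
  simp only [mem_filter, and_assoc]

lemma count_true (a b D₀ : ℤ) (X : ℕ) {i : DecidablePred fun D => Q44.BN.Same a b D₀ D} :
    count a b D₀ (fun _ => True) X =
      ((Q44.BN.Sq X).filter fun D => Q44.BN.Same a b D₀ D).card :=
  (count_eq a b D₀ (fun _ => True) X (i := Classical.decPred _)).trans
    (Q44.BN.cardS (fun _ => ⟨fun h => h.1, fun h => ⟨h, trivial⟩⟩) _)

lemma prop_of {a b : ℤ} (h : Curves a b) {D₀ : ℤ} {P : ℤ → Prop} {c : ℝ}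
    (hp : (cd h).Prp D₀ P c) : Proportion a b D₀ P c := by
  refine hp.congr fun X => ?_
  rw [count_eq, count_true]
  rfl

lemma law_eq {t : ℝ} (ht : 0 ≤ t) (r : ℕ) : Q44.BC.lam t r = law t r := Q44.BN.lam_tprod ht r

lemma kappa_eq : Q44.BC.lam 1 0 = κ := by
  rw [Q44.BN.lam_tprod zero_le_one 0]
  unfold κ
  simp

lemma dense {a b : ℤ} (h : Curves a b) {D₀ : ℤ} (hD : Squarefree D₀) : Dense a b D₀ := by
  obtain ⟨η, X₀, hη, hX⟩ := (cd h).density hD
  refine ⟨η, hη, ?_⟩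
  filter_upwards [eventually_ge_atTop X₀] with X hX0
  rw [count_true]
  exact hX X hX0

lemma laws {a b : ℤ} (h : Curves a b) {D₀ : ℤ} (hD : Squarefree D₀) : Laws a b D₀ := by
  obtain ⟨⟨t1, t2⟩, l1, l2, -⟩ := (cd h).facts hD
  rw [tau_eq h] at t1 l1
  rw [tau_eq' h] at t2 l2
  have g1 : Q44.BC.lam (τ a b D₀) = law (τ a b D₀) := funext fun r => law_eq t1.le r
  have g2 : Q44.BC.lam (τ' a b D₀) = law (τ' a b D₀) := funext fun r => law_eq t2.le r
  refine ⟨⟨?_, ?_⟩, fun i => ⟨?_, ?_⟩⟩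
  · rw [← g1]
    exact Q44.BN.lam_hasSum t1.le
  · rw [← g2]
    exact Q44.BN.lam_hasSum t2.le
  · rw [← g1]
    exact prop_of h ((cd h).prp_congr (fun D hD => f₁_iff h hD (i + 1)) (l1 i))
  · rw [← g2]
    exact prop_of h ((cd h).prp_congr (fun D hD => f₂_iff h hD (i + 1)) (l2 i))

lemma balanced {a b : ℤ} (h : Curves a b) {D₀ : ℤ} (hD : Squarefree D₀)
    (ht : τ a b D₀ = 1) : Proportion a b D₀ (Good a b) κ := by
  have k := (cd h).facts_sm hD (by rw [tau_eq h, ht])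
  rw [kappa_eq] at k
  exact prop_of h ((cd h).prp_congr (fun D hD => good_iff h hD) k)

lemma positive {a b : ℤ} (h : Curves a b) : Positive a b := by
  obtain ⟨D₀, hD, ht, -⟩ := (cd h).ex_bal
  obtain ⟨η, hη, hX⟩ := (cd h).pos_sm hD ht
  refine ⟨⟨D₀, hD, ht⟩, η, hη, ?_⟩
  filter_upwards [hX] with X hX0
  refine hX0.trans (Nat.cast_le.2 (le_of_eq ?_))
  rw [total_eq]
  refine congrArg Finset.card ?_
  ext D
  rw [mem_filter, mem_filter]
  exact and_congr_right fun hD => good_iff h (Q44.BN.mem_Sq.1 hD).2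

lemma tails {a b : ℤ} (h : Curves a b) : Tails a b := by
  obtain ⟨C, hC, hR⟩ := (cd h).sel_tail
  refine ⟨C, hC, fun R => ?_⟩
  filter_upwards [hR R] with X hX
  refine le_trans (Nat.cast_le.2 ?_) (hX.trans (le_of_eq ?_))
  · rw [total_eq]
    refine card_le_card fun D hD => ?_
    rw [mem_filter] at hD ⊢
    refine ⟨hD.1, ?_⟩
    have hsq := (Q44.BN.mem_Sq.1 hD.1).2
    obtain ⟨i, h1, h2, -⟩ := f₁_of h hsq
    obtain ⟨j, k1, k2, -⟩ := f₂_of h hsq
    have h3 : 2 * R + 2 < f₁ a b D + f₂ a b D := hD.2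
    rw [h2, k2] at h3
    rw [h1, k1, ← pow_add]
    have e : 4 * 4 ^ R = 2 ^ (2 * R + 2) := by
      have e4 : (4 : ℕ) = 2 ^ 2 := rfl
      rw [e4, ← pow_mul, ← pow_add, add_comm]
    rw [e]
    exact Nat.pow_lt_pow_right (by norm_num) (by omega)
  · have e : total (fun _ => True) X = (Q44.BN.Sq X).card := by
      rw [total_eq (i := fun _ => instDecidableTrue)]
      rw [filter_true]
    rw [e]

lemma explicit : Explicit := by
  intro r s D hrs h0 hD hp hpos hneg
  have hr : r ≠ 0 := left_ne_zero_of_mul (left_ne_zero_of_mul h0)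
  have hs : s ≠ 0 := right_ne_zero_of_mul (left_ne_zero_of_mul h0)
  have h1 : (r + s) * (r - s) ≠ 0 := by
    intro h
    apply right_ne_zero_of_mul h0
    linear_combination h
  have hodd : r % 2 = 1 ∨ s % 2 = 1 := by
    by_contra h
    obtain ⟨u, v, huv⟩ := hrs
    obtain ⟨r', rfl⟩ : ∃ r', r = 2 * r' := ⟨r / 2, by omega⟩
    obtain ⟨s', rfl⟩ : ∃ s', s = 2 * s' := ⟨s / 2, by omega⟩
    have : 2 * (u * r' + v * s') = 1 := by linear_combination huv
    omega
  have eC : (r ^ 2 + s ^ 2) ^ 2 - 4 * (r * s) ^ 2 = (r ^ 2 - s ^ 2) * (r ^ 2 - s ^ 2) := by ring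
  have hcur : Curves (r ^ 2 + s ^ 2) ((r * s) ^ 2) := by
    refine ⟨⟨pow_ne_zero 2 (mul_ne_zero hr hs), ⟨r * s, by ring⟩⟩, ?_, ?_⟩
    · rw [eC]
      exact mul_ne_zero (right_ne_zero_of_mul h0) (right_ne_zero_of_mul h0)
    · rw [eC]
      exact ⟨_, rfl⟩
  have e : (cd hcur).bad = bad (r ^ 2 + s ^ 2) ((r * s) ^ 2) := rfl
  have hb := Q44.BS.bal (cd hcur).two_bad hr hs (left_ne_zero_of_mul h1) (right_ne_zero_of_mul h1)
    hodd hD (fun p hpb => ⟨(cd hcur).bad_prime hpb, by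
      have hpp := (cd hcur).bad_prime hpb
      refine hp p hpp ?_
      have h2 : (p : ℤ) ∣ 2 * ((r * s) ^ 2 * ((r ^ 2 + s ^ 2) ^ 2 - 4 * (r * s) ^ 2)) :=
        Int.natCast_dvd.2 (Nat.dvd_of_mem_primeFactors hpb)
      have e3 : 2 * ((r * s) ^ 2 * ((r ^ 2 + s ^ 2) ^ 2 - 4 * (r * s) ^ 2)) =
        2 * (r * s * (r ^ 2 - s ^ 2)) ^ 2 := by ring
      rw [e3] at h2
      rcases (Nat.prime_iff_prime_int.1 hpp).dvd_or_dvd h2 with h3 | h3
      · exact h3.mul_right _
      · exact ((Nat.prime_iff_prime_int.1 hpp).dvd_of_dvd_pow h3).mul_left _⟩)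
    (fun h => hpos (by
      have h3 : r % 2 = 1 := by omega
      have h4 : s % 2 = 1 := by omega
      rw [Int.mul_emod, h3, h4]
      norm_num)) (fun h => hneg (by
      rcases Int.emod_two_eq_zero_or_one r with h3 | h3
      · rw [Int.mul_emod, h3, zero_mul]
        norm_num
      · have h4 : s % 2 = 0 := by omega
        rw [Int.mul_emod, h4, mul_zero]
        norm_num))
  have g1 : (r * s * D) ^ 2 = (r * s) ^ 2 * D ^ 2 := by ring
  rw [g1] at hb
  exact ⟨hcur, hb.1, hb.2⟩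

lemma Fam_eq (H : ℕ) : Fam H = (Pool.Agent.Q269.IsoFour.F4 H : Set (ℤ × ℤ)) := by
  ext c
  rw [Finset.mem_coe, Pool.Agent.Q269.IsoFour.mem_F4]
  constructor
  · rintro ⟨h1, h2, h3, h4, h5⟩
    exact ⟨h1, ⟨h4, h5⟩, h2, (Pool.Agent.Q269.IsoFour.has4_iff h1).1 h3⟩
  · rintro ⟨h1, ⟨h4, h5⟩, h2, h3⟩
    exact ⟨h1, h2, (Pool.Agent.Q269.IsoFour.has4_iff h1).2 h3, h4, h5⟩

lemma full_of {a b : ℤ} (h : (Pool.Agent.TH841.NO.SQ a b).ncard = 2 ^ Pool.Agent.Q52.ISO.ex a b ∧
    (Pool.Agent.TH841.NO.SQ (-2 * a) (a ^ 2 - 4 * b)).ncard =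
      2 ^ Pool.Agent.Q52.ISO.ex (-2 * a) (a ^ 2 - 4 * b) ∧ Pool.Agent.Q52.ISO.Conj a b) : Full a b := by
  obtain ⟨h1, h2, m, hm⟩ := h
  refine ⟨h1, h2, ?_⟩
  unfold Parity
  rw [Int.modEq_iff_dvd]
  have h5 : rank a b + f a b + f (-2 * a) (a ^ 2 - 4 * b) = m + m := hm
  exact ⟨m - rank a b - 1, by omega⟩

lemma goodModel_of {c : ℤ × ℤ} (h : Pool.Agent.Q44.PY.G4 c) : c ∈ GoodModel := by
  obtain ⟨a, s, h1, h2, h3, h4⟩ := h
  exact ⟨a, s, h1, h2, full_of h3, full_of h4⟩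

lemma heights : Heights := by
  refine ⟨fun H => by rw [Fam_eq]; exact Finset.finite_toSet _, ?_, ?_⟩
  · obtain ⟨c, C, hc, -, h⟩ := Pool.Agent.Q269.IsoFour.count_F4
    refine ⟨c, C, hc, ?_⟩
    filter_upwards [h] with H hH
    rw [Fam_eq, Set.ncard_coe_finset]
    exact hH
  · obtain ⟨δ, hδ, h⟩ := Pool.Agent.Q44.PY.many4
    obtain ⟨D', -, H3, h3⟩ := Pool.Agent.Q269.IsoFour.compare
    refine ⟨δ, hδ, ?_⟩
    filter_upwards [h, eventually_ge_atTop H3] with H hH hH3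
    have g3 : (0 : ℝ) < (Pool.Agent.Q269.IsoFour.F4 H).card := by exact_mod_cast (h3 H hH3).1
    unfold proportion
    have e1 : ((Fam H).ncard : ℝ) = (Pool.Agent.Q269.IsoFour.F4 H).card := by
      rw [Fam_eq, Set.ncard_coe_finset]
    rw [e1, le_div_iff₀ g3]
    refine hH.trans (Nat.cast_le.2 ?_)
    rw [← Set.ncard_coe_finset]
    refine Set.ncard_le_ncard (fun k hk => ?_) (Set.Finite.inter_of_left (by
      rw [Fam_eq]
      exact finite_toSet _) _)
    rw [mem_coe, mem_filter] at hk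
    refine ⟨?_, goodModel_of hk.2⟩
    rw [Fam_eq, mem_coe]
    exact hk.1

/-- **The parity of the ranks and of the 2-isogeny Selmer ranks of the curves with a rational cyclic isogeny
of degree four: all the quadratic twists, all the curves ordered by the height.** -/
theorem result : (∀ a b : ℤ, Curves a b → (Basic a b ∧ Tails a b ∧ Positive a b) ∧
    ∀ D₀ : ℤ, Squarefree D₀ → Dense a b D₀ ∧ Laws a b D₀ ∧
      (τ a b D₀ = 1 → Proportion a b D₀ (Good a b) κ)) ∧
    (0.288 < κ ∧ κ < 0.290) ∧ Explicit ∧ Heights := by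
  refine ⟨fun a b h => ⟨⟨basic h, tails h, positive h⟩, fun D₀ hD => ⟨dense h hD, laws h hD,
    balanced h hD⟩⟩, ?_, explicit, heights⟩
  rw [← kappa_eq]
  exact Q44.BN.lam_one

end Pool.Agent.Results.MP_e2b281_nt.RationalFourIsogeny
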